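import Pool.Agent.helper27.SY.Spec
import Pool.Agent.helper95.SX.TLS

set_option autoImplicit false

/-!
# Project sy (MP_5628fe_nt), module WTLS
-/

open Finset ArithmeticFunction

namespace Pool.Agent.SY

open Pool.Agent.SX Pool.Agent.helper85.BVP

/-- **WTLS**: the exponential bound for the doubled block. -/
theorem WTLS (hWMB : WMB_stmt) (hWSTP : WSTP_stmt) (hEBD : EBD_stmt) : WTLS_stmt := by
  intro h h28 hTail hsmall hsig hV m hm
  have hle : h ≤ 2 * h := by omega
  obtain ⟨-, hE, -⟩ := hEBD 28 h (2 * h) (31 / 20) le_rfl h28 hle hsig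
  have key : ∀ j, 2 ≤ j → WLo h (j * h) (600 / 3 ^ j) ∧ WUp h (j * h) (600 / 3 ^ j) := by
    intro j hj
    by_cases h15 : 15 ≤ j
    · exact hTail j h15
    · exact hsmall j hj (by omega)
  have hB : ∀ K k, K + 1 ≤ m → k ≤ K → m * (2 * h) - k * (2 * h) = 2 * (m - k) * h := by
    intro K k hK hk
    rw [← Nat.sub_mul]
    ring
  have hlo : ∀ K, K + 1 ≤ m → m ≤ K + 2 → Odd K → WLo (2 * h) (m * (2 * h)) (600 / 3 ^ m) := by
    intro K hK1 hK2 hodd
    have h1 := (hWSTP h (2 * h) (m * (2 * h)) K (fun k => 600 / 3 ^ (2 * (m - k))) h28 hle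
      (Nat.mul_le_mul_right _ (by omega))).1 hodd (by
        intro k hk
        rw [hB K k hK1 hk]
        have := key (2 * (m - k)) (by omega)
        exact ⟨fun _ => this.1, fun _ => this.2⟩)
    exact hWMB.1 _ _ _ _ _ le_rfl
      (TLS_val _ m K hm hK1 hK2 hV (fun k => (hE k).1) (fun k => (hE k).2)) h1
  have hup : ∀ K, K + 1 ≤ m → m ≤ K + 2 → Even K → WUp (2 * h) (m * (2 * h)) (600 / 3 ^ m) := by
    intro K hK1 hK2 heven
    have h1 := (hWSTP h (2 * h) (m * (2 * h)) K (fun k => 600 / 3 ^ (2 * (m - k))) h28 hle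
      (Nat.mul_le_mul_right _ (by omega))).2 heven (by
        intro k hk
        rw [hB K k hK1 hk]
        have := key (2 * (m - k)) (by omega)
        exact ⟨fun _ => this.2, fun _ => this.1⟩)
    exact hWMB.2.1 _ _ _ _ _ le_rfl
      (TLS_val _ m K hm hK1 hK2 hV (fun k => (hE k).1) (fun k => (hE k).2)) h1
  rcases Nat.even_or_odd m with hme | hmo
  · obtain ⟨r, hr⟩ := hme
    refine ⟨hlo (m - 1) (by omega) (by omega) ?_, hup (m - 2) (by omega) (by omega) ?_⟩
    · exact ⟨r - 1, by omega⟩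
    · exact ⟨r - 1, by omega⟩
  · obtain ⟨r, hr⟩ := hmo
    refine ⟨hlo (m - 2) (by omega) (by omega) ?_, hup (m - 1) (by omega) (by omega) ?_⟩
    · exact ⟨r - 1, by omega⟩
    · exact ⟨r, by omega⟩

end Pool.Agent.SY
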